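import Pool.Agent.Y34.HB.Stm

/-! HB-THICK (job 2904, helper929 for helper34) -/

set_option autoImplicit false

universe u v

open Metric Set Filter Topology
open Pool.Agent.TH60.FP
open Pool.Agent.Y34.HB

namespace Pool.Agent.Y929.HB.Thick

/-- the last coordinates -/
noncomputable def tl {k : ℕ} (x : E (k + 1)) : E k := WithLp.toLp 2 (fun i : Fin k => x i.succ)

theorem dist_tl {k : ℕ} (x y : E (k + 1)) :
    dist x y ^ 2 = dist (tl x) (tl y) ^ 2 + (x 0 - y 0) ^ 2 := by
  rw [EuclideanSpace.dist_eq, EuclideanSpace.dist_eq, Real.sq_sqrt, Real.sq_sqrt, Fin.sum_univ_succ]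
  · simp only [tl, Real.dist_eq, sq_abs]
    ring
  · exact Finset.sum_nonneg fun _ _ => sq_nonneg _
  · exact Finset.sum_nonneg fun _ _ => sq_nonneg _

theorem tl_zero {k : ℕ} : tl (0 : E (k + 1)) = 0 := by
  ext i
  simp [tl]

theorem t (h1 : S_SLAB.{u}) (_h2 : S_LIM.{u}) : S_THICK.{u, v} := by
  intro X _ G _ _ hG k hno
  by_contra hcon
  push Not at hcon
  have := hG.proper
  have := hG.isom
  obtain ⟨K, hK, hKc⟩ := hG.cc
  -- the slabs
  have key : ∀ n : ℕ, ∃ (d : ℝ) (P : E k → ℝ → X), 2 * (n : ℝ) + 2 < d ∧ P 0 (d / 2) ∈ K ∧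
      ∀ z w s t, 0 ≤ s → s ≤ d → 0 ≤ t → t ≤ d →
        dist (P z s) (P w t) ^ 2 = dist z w ^ 2 + (s - t) ^ 2 := by
    intro n
    obtain ⟨f, h, e, d, hf, hh, he, hR, hd⟩ := hcon (2 * (n : ℝ) + 2)
    have hd0 : 0 < d := by
      have : (0 : ℝ) ≤ n := Nat.cast_nonneg n
      linarith
    obtain ⟨P, hP⟩ := h1 X hG.cn k f h e d hf hh he hd0 hR
    obtain ⟨g, hg⟩ := hKc (P 0 (d / 2))
    refine ⟨d, fun z s => g • P z s, hd, hg, fun z w s t a1 a2 a3 a4 => ?_⟩
    rw [dist_smul]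
    exact hP z w s t a1 a2 a3 a4
  choose d P hd hPK hP using key
  -- the maps
  set F : ℕ → E (k + 1) → X := fun n x => P n (tl x) (d n / 2 + x 0) with hF
  have hdist : ∀ (n : ℕ) (x y : E (k + 1)), |x 0| ≤ n → |y 0| ≤ n →
      dist (F n x) (F n y) = dist x y := by
    intro n x y hx hy
    rw [abs_le] at hx hy
    have h2 := hd n
    have h3 := hP n (tl x) (tl y) (d n / 2 + x 0) (d n / 2 + y 0) (by linarith) (by linarith)
      (by linarith) (by linarith)
    have h4 : dist (F n x) (F n y) ^ 2 = dist x y ^ 2 := by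
      rw [dist_tl x y, hF]
      simp only
      rw [h3]
      ring
    exact (sq_eq_sq₀ dist_nonneg dist_nonneg).1 h4
  have h0 : ∀ n, F n 0 ∈ K := by
    intro n
    rw [hF]
    simp only [tl_zero, PiLp.zero_apply, add_zero]
    exact hPK n
  have hev : ∀ x : E (k + 1), ∀ᶠ n : ℕ in (hyperfilter ℕ : Filter ℕ), |x 0| ≤ (n : ℝ) := by
    intro x
    have h2 : ∀ᶠ n : ℕ in atTop, |x 0| ≤ (n : ℝ) := by
      filter_upwards [eventually_ge_atTop ⌈|x 0|⌉₊] with n hn
      exact (Nat.le_ceil _).trans (by exact_mod_cast hn)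
    exact Nat.hyperfilter_le_atTop h2
  have hlim : ∀ x : E (k + 1), ∃ p : X, Tendsto (fun n => F n x) (hyperfilter ℕ : Filter ℕ) (𝓝 p) := by
    intro x
    have hc : IsCompact (cthickening (dist x 0) K) := hK.cthickening
    have hmem : cthickening (dist x 0) K ∈ ((hyperfilter ℕ).map fun n => F n x) := by
      rw [Ultrafilter.mem_map]
      filter_upwards [hev x] with n hn
      have h2 := hdist n x 0 hn (by simp)
      exact mem_cthickening_of_dist_le _ (F n 0) _ _ (h0 n) h2.le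
    obtain ⟨p, -, hp⟩ := hc.ultrafilter_le_nhds' _ hmem
    exact ⟨p, hp⟩
  choose f hf using hlim
  refine hno f (Isometry.of_dist_eq fun x y => ?_)
  have h2 : Tendsto (fun n => dist (F n x) (F n y)) (hyperfilter ℕ : Filter ℕ)
      (𝓝 (dist (f x) (f y))) := (hf x).dist (hf y)
  refine tendsto_nhds_unique h2 (Tendsto.congr' ?_ tendsto_const_nhds)
  filter_upwards [hev x, hev y] with n hx hy
  exact (hdist n x y hx hy).symm

end Pool.Agent.Y929.HB.Thick
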