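import Pool.Agent.Y34.HB.Stm2
import Pool.Agent.TH60.FP.Strip
import Pool.Agent.TH60.FP.Trans
import Pool.Agent.TH60.FP.Mid
import Pool.Agent.TH60.FP.Dist
import Pool.Agent.TH60.FP.Cen
import Pool.Agent.TH60.FP.Close

/-!
# Project HP: an axis which is almost fixed by the centraliser
-/

set_option autoImplicit false

universe u v

open Metric Set
open Pool.Agent.TH60.FP Pool.Agent.TH60.FP.Dist Pool.Agent.Y34.HB

namespace Pool.Agent.Y929.HB.Cent

variable {X : Type u} [MetricSpace X] {G : Type v} [Group G] [MulAction G X]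

/-- Two axes of the same element are parallel. -/
lemma par_axis [IsIsometricSMul G X] {g : G} {τ : ℝ} (hτ : 0 < τ) {a b : ℝ → X}
    (ha : Axis g τ a) (hb : Axis g τ b) : Par a b := by
  have hper : Function.Periodic (fun t => dist (a t) (b t)) τ := by
    intro t
    show dist (a (t + τ)) (b (t + τ)) = dist (a t) (b t)
    rw [← ha.2, ← hb.2, dist_smul]
  refine ⟨τ + dist (a 0) (b 0) + τ, fun t => ?_⟩
  obtain ⟨y, hy, hty⟩ := hper.exists_mem_Ico₀ hτ t
  have h1 : dist (a t) (b t) = dist (a y) (b y) := hty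
  have h2 : dist (a y) (a 0) ≤ τ := by
    rw [dist_iso ha.1, sub_zero, abs_of_nonneg hy.1]
    exact hy.2.le
  have h3 : dist (b 0) (b y) ≤ τ := by
    rw [dist_comm, dist_iso hb.1, sub_zero, abs_of_nonneg hy.1]
    exact hy.2.le
  rw [h1]
  exact (dist_triangle4 _ (a 0) (b 0) _).trans (add_le_add (add_le_add h2 le_rfl) h3)

lemma axis_smul [IsIsometricSMul G X] {g h : G} (hc : Commute g h) {τ : ℝ} {a : ℝ → X}
    (ha : Axis g τ a) : Axis g τ (fun t => h • a t) := by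
  refine ⟨(isometry_smul X h).comp ha.1, fun t => ?_⟩
  show g • h • a t = h • a (t + τ)
  rw [← mul_smul, hc.eq, mul_smul, ha.2]

/-- The midpoint of two axes. -/
lemma mid (hI : S_INV.{u, v}) (hG : Geo X G) {g : G} {τ : ℝ} (hτ : 0 < τ) {a b : ℝ → X}
    (ha : Axis g τ a) (hb : Axis g τ b) : ∃ m : ℝ → X, Axis g τ m ∧
    ∀ z : ℝ → X, Axis g τ z → DD z m ^ 2 ≤ (DD z a ^ 2 + DD z b ^ 2) / 2 - DD a b ^ 2 / 4 := by
  have := hG.isom
  have hX := hG.cn
  have h1 : C_STRIP.{u} := t_strip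
  have h2 : C_TRANS.{u} := t_trans t_strip
  obtain ⟨S, o, hS, hS0, hSd, hSg, hSm⟩ := hI X G hG g τ hτ a b ha hb
  obtain ⟨d, hd⟩ : ∃ d, d = DD a b := ⟨_, rfl⟩
  rw [← hd] at hS hSd hSg hSm
  have hd0 : 0 ≤ d := by
    rw [hd]
    exact infDist_nonneg
  have hd2 : 0 ≤ d / 2 := by linarith
  have hd2' : d / 2 ≤ d := by linarith
  have hm : Isometry (fun t => S t (d / 2)) := by
    refine Isometry.of_dist_eq fun s t => ?_
    have h3 := hS s (d / 2) t (d / 2) hd2 hd2' hd2 hd2'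
    rw [sub_self, zero_pow two_ne_zero, add_zero] at h3
    rw [Real.dist_eq]
    have h4 : dist (S s (d / 2)) (S t (d / 2)) ^ 2 = |s - t| ^ 2 := by rw [h3, sq_abs]
    exact (sq_eq_sq₀ dist_nonneg (abs_nonneg _)).1 h4
  have hmA : Axis g τ (fun t => S t (d / 2)) := ⟨hm, fun t => hSg t _ hd2 hd2'⟩
  have ham : Sy a (fun t => S t (d / 2)) := by
    intro s t
    have h3 := hS s 0 t (d / 2) le_rfl hd0 hd2 hd2'
    have h4 := hS 0 0 0 (d / 2) le_rfl hd0 hd2 hd2'
    rw [hS0] at h3 h4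
    show dist (a s) (S t (d / 2)) ^ 2 = dist (a 0) (S 0 (d / 2)) ^ 2 + (t - s) ^ 2
    rw [h3, h4]
    ring
  have hob : Sy a (Sh b o) := by
    intro s t
    have h3 := hS s 0 t d le_rfl hd0 hd0 le_rfl
    have h4 := hS 0 0 0 d le_rfl hd0 hd0 le_rfl
    rw [hS0, hSd] at h3 h4
    show dist (a s) (b (t + o)) ^ 2 = dist (a 0) (b (0 + o)) ^ 2 + (t - s) ^ 2
    rw [h3, h4]
    ring
  refine ⟨_, hmA, fun z hz => ?_⟩
  have haz : Par a z := par_axis hτ ha hz
  obtain ⟨o', ho'⟩ := h1 X hX a z ha.1 hz.1 haz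
  have e1 : Sy (fun t => S t (d / 2)) (Sh z o') :=
    h2 X hX a _ (Sh z o') ha.1 hm (iso_sh hz.1 o') ham ho'
  have e2 : Sy (Sh b o) (Sh z o') :=
    h2 X hX a (Sh b o) (Sh z o') ha.1 (iso_sh hb.1 o) (iso_sh hz.1 o') hob ho'
  have hmz : Par (fun t => S t (d / 2)) z := par_axis hτ hmA hz
  have hbz : Par b z := par_axis hτ hb hz
  have d1 : DD z (fun t => S t (d / 2)) = dist (Sh z o' 0) (S 0 (d / 2)) := by
    rw [← dd_symm h1 hX hm hz.1 hmz, ← dd_sh (fun t => S t (d / 2)) z o', dd_sy e1, dist_comm]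
  have d2 : DD z a = dist (Sh z o' 0) (a 0) := by
    rw [← dd_symm h1 hX ha.1 hz.1 haz, ← dd_sh a z o', dist_comm]
    exact dd_sy ho'
  have d3 : DD z b = dist (Sh z o' 0) (b (0 + o)) := by
    rw [← dd_symm h1 hX hb.1 hz.1 hbz, ← dd_sh_left h1 hX hb.1 hz.1 hbz o,
      ← dd_sh (Sh b o) z o', dd_sy e2, dist_comm]
    rfl
  rw [d1, d2, d3, ← hd]
  exact hSm 0 _

/-- **CENT** -/
theorem t (h : S_INV.{u, v}) : S_CENT.{u, v} := by
  intro X _ G _ _ hG g τ hτ c hc B hB η hη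
  have := hG.isom
  have hX := hG.cn
  obtain ⟨-, k2, k3, -, -⟩ := t_dd t_strip (t_trans t_strip) (t_mid t_strip) X hX
  have hcom : ∀ a : Subgroup.centralizer ({g} : Set G), Commute g (a : G) := by
    intro a
    have h1 := Subgroup.mem_centralizer_iff.1 a.2 g rfl
    exact h1
  have hact : ∀ (a : Subgroup.centralizer ({g} : Set G)) (l : ℝ → X),
      a • l = fun t => (a : G) • l t := fun a l => rfl
  obtain ⟨c', h1, h2, -⟩ := t_cen.{u, v} (ℝ → X) (fun l => Axis g τ l) DD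
    (Subgroup.centralizer ({g} : Set G))
    (by
      intro a x hx
      rw [hact]
      exact axis_smul (hcom a) hx)
    (fun x y _ _ => infDist_nonneg)
    (fun x y hx hy => k2 x y hx.1 hy.1 (par_axis hτ hx hy))
    (fun x y z hx hy hz => k3 x y z hx.1 hy.1 hz.1 (par_axis hτ hx hy) (par_axis hτ hy hz))
    (by
      intro a x y _ _
      rw [hact, hact]
      exact Close.DD_smul (a : G) x y)
    (fun x y hx hy => mid h hG hτ hx hy)
    c B η hc hη (by
      intro a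
      rw [hact]
      exact hB a (hcom a))
  refine ⟨c', h1, fun k hk => ?_⟩
  have hmem : k ∈ Subgroup.centralizer ({g} : Set G) := by
    rw [Subgroup.mem_centralizer_iff]
    intro x hx
    rw [Set.mem_singleton_iff.1 hx]
    exact hk
  exact h2 ⟨k, hmem⟩

end Pool.Agent.Y929.HB.Cent
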